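import Pool.Agent.Work.MP_2ad852_ag.G3.Defs

/-!
# Block G3: statements of the items
-/

namespace Pool.Agent.Work.MP_2ad852_ag.G3

open MvPolynomial Finset Pool.Agent.Work.MP_2ad852_ag.GF Pool.Agent.Work.MP_2ad852_ag.GS

/-! ## A. Left kernels: specialisation and simple rules -/

def S_Spec : Prop :=
  ∀ (ι : Type) [Fintype ι] (n : ℕ) (z : Fin n) (k e : ℕ) (d : ι → ℕ)
    (f : ι → MvPolynomial (Fin n) ℂ), (∀ l, (f l).IsHomogeneous (d l)) → SurjAt z k e f →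
    ¬ LK z k e d

def S_FillOpen : Prop :=
  ∀ (ι : Type) [Fintype ι] (n : ℕ) (z : Fin n) (k e v : ℕ) (d : ι → ℕ), ¬ LK z k e (dv d v e) →
    ∃ P : Rg ι n, P ≠ 0 ∧ ∀ c : ι × (Fin n →₀ ℕ) → ℂ, eval c P ≠ 0 →
      ∃ B : Fin v → MvPolynomial (Fin n) ℂ, (∀ j, (B j).IsHomogeneous e) ∧
        SurjAt z k e (Sum.elim (sf d c) B)

def S_SubLK : Prop :=
  ∀ (ι ι' : Type) [Fintype ι] [Fintype ι'] (n : ℕ) (z : Fin n) (k e : ℕ) (d : ι → ℕ)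
    (φ : ι' → ι), Function.Injective φ → ¬ LK z k e (fun l => d (φ l)) → ¬ LK z k e d

def S_ZeroLK : Prop :=
  ∀ (ι : Type) [Fintype ι] (n : ℕ) (z : Fin n) (k e : ℕ) (d : ι → ℕ) (l : ι), d l = 0 →
    ¬ LK z k e d

def S_FullLK : Prop :=
  ∀ (ι : Type) [Fintype ι] (n : ℕ) (z : Fin n) (k e : ℕ) (d : ι → ℕ), ¬ LK z (e + 1) e d →
    ¬ LK z k e d

def S_CompLK : Prop :=
  ∀ (ι : Type) [Fintype ι] (n : ℕ) (z : Fin n) (k e : ℕ) (d : ι → ℕ), ¬ LK z k e d →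
    ¬ LK z 1 (e + 1) d → ¬ LK z (k + 1) (e + 1) d

def S_BinLK : Prop :=
  ∀ (ι : Type) [Fintype ι] (z : Fin 3) (e : ℕ) (d : ι → ℕ) (i j : ι), i ≠ j →
    d i + d j ≤ e + 1 → ¬ LK z 1 e d

def S_BinGen : Prop :=
  ∀ (ι : Type) [Fintype ι] (z : Fin 3) (e : ℕ) (d : ι → ℕ) (i j : ι), i ≠ j →
    d i + d j ≤ e + 1 →
    ∃ P : Rg ι 3, P ≠ 0 ∧ ∀ c : ι × (Fin 3 →₀ ℕ) → ℂ, eval c P ≠ 0 →
      ∀ h : MvPolynomial (Fin 3) ℂ, h.IsHomogeneous e →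
        ∃ u v : MvPolynomial (Fin 3) ℂ, X z ∣ h - (sf d c i * u + sf d c j * v)

def S_R1 : Prop :=
  ∀ (ι : Type) [Fintype ι] [DecidableEq ι] (z : Fin 3) (k e : ℕ) (d : ι → ℕ) (i j : ι), i ≠ j →
    d i + d j ≤ e + 2 → (∀ l, l ≠ i → l ≠ j → 1 ≤ d l) → ¬ LK z k e (low d i j) →
    ¬ LK z (k + 1) (e + 1) d

def S_One : Prop :=
  ∀ (ι : Type) [Fintype ι] (z : Fin 3) (k e v : ℕ) (d : ι → ℕ),
    (∀ l l', d l ≤ e → d l' ≤ e → l = l') → (Mk z k e).card ≤ nC z k e d + v →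
    ¬ LK z k e (dv d v e)

/-! ## B. The core inequality with leading exponents of the forms -/

def S_LeadSyz2 : Prop :=
  ∀ (n : ℕ) (R : Type) [CommRing R] [IsDomain R] (z y : Fin n) (k e m : ℕ)
    (F : (Fin n →₀ ℕ) → R) (u : MvPolynomial (Fin n) R), y ≠ z → u.IsHomogeneous m →
    IsAnn z k e F u → (∃ p : Fin n →₀ ℕ, p z = 0 ∧ coeff p u ≠ 0) →
    ∃ μ : Fin n →₀ ℕ, μ z = 0 ∧ ∑ i, μ i = m ∧ IsLead2 z y k e F μ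

def S_TwfNe : Prop :=
  ∀ (ι : Type) (n : ℕ) (z y : Fin n) (d : ι → ℕ) (l : ι), y ≠ z →
    ∃ p : Fin n →₀ ℕ, p z = 0 ∧ coeff p (twf z y d l) ≠ 0

def S_Core3L : Prop :=
  ∀ (ι : Type) [Fintype ι] (n : ℕ) (z y : Fin n) (k e : ℕ) (d : ι → ℕ)
    (F : (Fin n →₀ ℕ) → Rg ι n), y ≠ z → LKw z k e d F →
    ∃ L : (Fin n →₀ ℕ) → Prop, Closed z y L ∧
      (∀ l, ∃ μ : Fin n →₀ ℕ, μ z = 0 ∧ ∑ i, μ i = d l ∧ L μ) ∧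
      (∑ l ∈ (Finset.univ : Finset ι).filter (fun l => d l ≤ e), (Std z k (e - d l) L).card) + 1 ≤
        (Bad2 z k e L).card

/-! ## C. Three variables: levels -/

def S_Thr : Prop :=
  ∀ (z y x : Fin 3) (L : (Fin 3 →₀ ℕ) → Prop), y ≠ z → x ≠ z → x ≠ y → Closed z y L →
    ∀ m t i, i ≤ t → (L (mo z y x m i (t - i)) ↔ i + gg z y x L m t ≤ t)

def S_gg : Prop :=
  ∀ (z y x : Fin 3) (L : (Fin 3 →₀ ℕ) → Prop), y ≠ z → x ≠ z → x ≠ y → Closed z y L →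
    ∀ m t, gg z y x L m t ≤ t + 1 ∧ gg z y x L (m + 1) t ≤ gg z y x L m t ∧
      (gg z y x L m t ≤ t → gg z y x L m (t + 1) ≤ gg z y x L m t) ∧
      (∀ μ : Fin 3 →₀ ℕ, L μ → μ z = 0 → ∑ i, μ i ≤ t → gg z y x L m t ≤ t)

def S_Lev : Prop :=
  ∀ (z y x : Fin 3) (k e m t1 t2 : ℕ) (L : (Fin 3 →₀ ℕ) → Prop), y ≠ z → x ≠ z → x ≠ y →
    Closed z y L → m + t1 + t2 = e →
    ((Bad2 z k e L).filter (fun p => p z = m)).card ≤ t1 + t2 + 1 ∧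
    (gg z y x L m t1 ≤ t1 → gg z y x L m t2 ≤ t2 →
      ((Bad2 z k e L).filter (fun p => p z = m)).card ≤ gg z y x L m t1 + gg z y x L m t2)

def S_StdG : Prop :=
  ∀ (z y x : Fin 3) (k s : ℕ) (L : (Fin 3 →₀ ℕ) → Prop), y ≠ z → x ≠ z → x ≠ y →
    (Std z k s L).card = ∑ m ∈ range (min k (s + 1)), gg z y x L m (s - m)

def S_CostA : Prop :=
  ∀ (z y x : Fin 3) (k e δ m : ℕ) (L : (Fin 3 →₀ ℕ) → Prop), y ≠ z → x ≠ z → x ≠ y →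
    Closed z y L → 1 ≤ δ → (∃ μ : Fin 3 →₀ ℕ, μ z = 0 ∧ ∑ i, μ i = δ ∧ L μ) → m ≤ e →
    (((Bad2 z k e L).filter (fun p => p z = m)).card : ℤ) ≤
      (if 2 * δ ≤ e - m then (gg z y x L m (e - m - δ) : ℤ) else 0) +
        ∑ t ∈ range δ, src δ t (e - m) * gg z y x L m t

def S_CostB : Prop :=
  ∀ (ι : Type) [Fintype ι] [DecidableEq ι] (d : ι → ℕ) (l1 : ι) (e : ℕ) (g : ℕ → ℤ),
    (∀ l, l ≠ l1 → e + 2 ≤ d l1 + d l) → 1 ≤ d l1 → ∀ e' ≤ e,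
      ∑ l, (if d l ≤ e' then g (e' - d l) else 0) =
        (if 2 * d l1 ≤ e' then g (e' - d l1) else 0) + ∑ t ∈ range (d l1), snk d l1 t e' * g t

/-! ## D. The one dimensional inequality -/

def S_Layer : Prop :=
  ∀ (T M N : ℕ) (w : ℕ → ℕ → ℤ) (R : ℕ → ℕ → ℕ) (B : ℤ),
    (∀ t m, t < T → m < M → R t m ≤ N) →
    (∀ t t' m, t ≤ t' → t' < T → m < M → R t' m ≤ R t m) →
    (∀ t m m', t < T → m ≤ m' → m' < M → R t m' ≤ R t m) →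
    (∀ X : ℕ → ℕ, (∀ t, X t ≤ M) → (∀ t t', t ≤ t' → t' < T → X t' ≤ X t) →
      ∑ t ∈ range T, ∑ m ∈ range (X t), w t m ≤ B) →
    ∑ t ∈ range T, ∑ m ∈ range M, w t m * R t m ≤ N * B

def S_Pool : Prop :=
  ∀ (T M : ℕ) (w : ℕ → ℕ → ℤ),
    (∀ t t' X Y, t < t' → t' < T → X < Y → Y ≤ M → 0 < ∑ m ∈ Ico X Y, w t m →
      0 ≤ ∑ m ∈ Ico X Y, w t' m) →
    ∀ X : ℕ → ℕ, (∀ t, X t ≤ M) → (∀ t t', t ≤ t' → t' < T → X t' ≤ X t) →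
      ∃ Y ≤ M, ∑ t ∈ range T, ∑ m ∈ range (X t), w t m ≤
        ∑ t ∈ range T, ∑ m ∈ range Y, w t m

def S_Cross : Prop :=
  ∀ (ι : Type) [Fintype ι] [DecidableEq ι] (d : ι → ℕ) (l1 : ι) (e : ℕ),
    (∀ l, d l1 ≤ d l) → (∀ l, l ≠ l1 → e + 2 ≤ d l1 + d l) →
    ∀ t t' X Y, t < t' → t' < d l1 → X < Y → Y ≤ e + 1 →
      0 < ∑ m ∈ Ico X Y, ((t : ℤ) + 1) * om d l1 t (e - m) →
      0 ≤ ∑ m ∈ Ico X Y, ((t' : ℤ) + 1) * om d l1 t' (e - m)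

def S_ChiW : Prop :=
  ∀ (ι : Type) [Fintype ι] [DecidableEq ι] (d : ι → ℕ) (l1 : ι) (e : ℕ),
    (∀ l, l ≠ l1 → e + 2 ≤ d l1 + d l) → 1 ≤ d l1 → ∀ e' ≤ e,
      ∑ t ∈ range (d l1), ((t : ℤ) + 1) * om d l1 t e' = chi d e'

def S_ChiT : Prop :=
  ∀ (ι : Type) [Fintype ι] (d : ι → ℕ) (e M Y : ℕ), (∀ l, 1 ≤ d l) → Y ≤ M → M ≤ e + 1 →
    ∑ m ∈ range Y, chi d (e - m) ≤ max 0 (∑ m ∈ range M, chi d (e - m))

def S_MkChi : Prop :=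
  ∀ (ι : Type) [Fintype ι] (z : Fin 3) (k e : ℕ) (d : ι → ℕ),
    ∑ m ∈ range (min k (e + 1)), chi d (e - m) = ((Mk z k e).card : ℤ) - nC z k e d

/-! ## E. Degrees at most `d_1 + d_2 - 2` -/

def S_TComb : Prop :=
  ∀ (ι : Type) [Fintype ι] [DecidableEq ι] (z y x : Fin 3) (k e : ℕ) (d : ι → ℕ) (l1 : ι)
    (L : (Fin 3 →₀ ℕ) → Prop), y ≠ z → x ≠ z → x ≠ y → Closed z y L → (∀ l, 1 ≤ d l) →
    (∀ l, d l1 ≤ d l) → (∀ l, l ≠ l1 → e + 2 ≤ d l1 + d l) →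
    (∃ μ : Fin 3 →₀ ℕ, μ z = 0 ∧ ∑ i, μ i = d l1 ∧ L μ) →
    ((Bad2 z k e L).card : ℤ) ≤
      ∑ l ∈ (Finset.univ : Finset ι).filter (fun l => d l ≤ e), ((Std z k (e - d l) L).card : ℤ) +
        max 0 (((Mk z k e).card : ℤ) - nC z k e d)

def S_TP : Prop :=
  ∀ (ι : Type) [Fintype ι] (z : Fin 3) (k e : ℕ) (d : ι → ℕ), (∀ l, 1 ≤ d l) →
    (∀ l l', l ≠ l' → e + 2 ≤ d l + d l') → (Mk z k e).card ≤ nC z k e d → ¬ LK z k e d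

def S_TS : Prop :=
  ∀ (ι : Type) [Fintype ι] (z : Fin 3) (k e v : ℕ) (d : ι → ℕ), (∀ l, 1 ≤ d l) →
    (∀ l l', l ≠ l' → e + 2 ≤ d l + d l') → (Mk z k e).card ≤ nC z k e d + v →
    ¬ LK z k e (dv d v e)

/-! ## F. Higher degrees -/

def S_Hc : Prop :=
  (∀ a c t, a + c ≤ t + 2 → Hc a c t = a * c) ∧
  (∀ a c t, Hc a (c + 1) (t + 1) = Hc a c t + min a (t + 2)) ∧
  (∀ a c t, t < c → Hc a (c + 1) t = Hc a c t) ∧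
  (∀ a c t, Hc a c t = Hc c a t) ∧
  (∀ a c, 1 ≤ a → 1 ≤ c → Hc a c 0 = 1)

def S_HcMk : Prop :=
  ∀ (ι : Type) [Fintype ι] [DecidableEq ι] (z : Fin 3) (k b : ℕ) (d : ι → ℕ) (i j : ι), i ≠ j →
    b + k + 2 = d i + d j → (∀ m, m ≠ i → m ≠ j → b < d m ∧ d i ≤ d m ∧ d j ≤ d m) →
    (Mk z k (b + k)).card + Hc (d i) (d j) b + cnt d i j (b + k) =
      nC z k (b + k) d + Hc (d i) (d j) (b + k)

def S_N1Num : Prop :=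
  ∀ (ι : Type) [Fintype ι] [DecidableEq ι] (z : Fin 3) (k b : ℕ) (d : ι → ℕ) (i j l : ι),
    i ≠ j → l ≠ i → l ≠ j → b + k + 2 = d i + d j → d i ≤ d l → d j ≤ d l → d l ≤ b + 1 →
    (Mk z k (b + k)).card ≤ nC z k (b + k) d

def S_N1 : Prop :=
  ∀ (ι : Type) [Fintype ι] [DecidableEq ι] (z : Fin 3) (k b : ℕ) (d : ι → ℕ) (i j l : ι),
    i ≠ j → l ≠ i → l ≠ j → (∀ m, 1 ≤ d m) → (∀ m, m ≠ i → m ≠ j → d i ≤ d m ∧ d j ≤ d m) →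
    d i + d j ≤ b + k + 1 → d l ≤ b + 1 → ¬ LK z k (b + k) d

def S_B4 : Prop :=
  ∀ (ι : Type) [Fintype ι] [DecidableEq ι] (z : Fin 3) (k e : ℕ) (d : ι → ℕ) (i j l m : ι),
    i ≠ j → i ≠ l → i ≠ m → j ≠ l → j ≠ m → l ≠ m → d i + d j + d l + d m ≤ 2 * e + 3 →
    ¬ LK z k e d

def S_N2A : Prop :=
  ∀ (ι : Type) [Fintype ι] [DecidableEq ι] (b e v : ℕ) (d : ι → ℕ) (i j : ι), i ≠ j →
    (∀ m, 1 ≤ d m) → d i + d j ≤ e + 2 →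
    Hc (d i) (d j) (e + 1) ≤ cnt d i j (e + 1) + Hc (d i) (d j) b + v →
    Hc (d i) (d j) e ≤ cnt (low d i j) i j e + Hc (d i) (d j) b + v

def S_N2B : Prop :=
  ∀ (ι : Type) [Fintype ι] [DecidableEq ι] (b e v : ℕ) (d : ι → ℕ) (i j l : ι), i ≠ j →
    l ≠ i → l ≠ j → (∀ m, 1 ≤ d m) → d i ≤ d j → d l = d j → b + 2 ≤ d j →
    d i + d j ≤ e + 2 →
    (∀ m, m ≠ i → m ≠ j → m ≠ l → e + 3 ≤ d l + d m) →
    Hc (d i) (d j) (e + 1) ≤ cnt d i j (e + 1) + Hc (d i) (d j) b + v →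
    Hc (d i) (d j - 1) e ≤ cnt (low d i j) i l e + Hc (d i) (d j - 1) b + v

def S_N2 : Prop :=
  ∀ (ι : Type) [Fintype ι] [DecidableEq ι] (z : Fin 3) (k b v : ℕ) (d : ι → ℕ) (i j : ι),
    i ≠ j → (∀ m, 1 ≤ d m) →
    (∀ m, m ≠ i → m ≠ j → d i ≤ d m ∧ d j ≤ d m ∧ b + 2 ≤ d m) → d i + d j ≤ b + k + 1 →
    (∀ l m, l ≠ i → l ≠ j → m ≠ i → m ≠ j → l ≠ m →
      2 * (b + k) + 4 ≤ d i + d j + d l + d m) →
    Hc (d i) (d j) (b + k) ≤ cnt d i j (b + k) + Hc (d i) (d j) b + v →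
    ¬ LK z k (b + k) (dv d v (b + k))

/-! ## G. Dimension counts for the injective case -/

def S_CIgen : Prop :=
  ∀ (ι : Type) [Fintype ι] (t : ℕ) (d : ι → ℕ) (i j : ι), i ≠ j →
    ∃ P : Rg ι 3, P ≠ 0 ∧ ∀ c : ι × (Fin 3 →₀ ℕ) → ℂ, eval c P ≠ 0 →
      Module.finrank ℂ (VV3 t) ≤
        Module.finrank ℂ (UU3 (sf d c i) (sf d c j) t) + Hc (d i) (d j) t

def S_Koszul : Prop :=
  ∀ (a c t : ℕ) (f g : MvPolynomial (Fin 3) ℂ), f.IsHomogeneous a → g.IsHomogeneous c →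
    f ≠ 0 → g ≠ 0 →
    Module.finrank ℂ (UU3 f g t) + Hc a c t ≤ Module.finrank ℂ (VV3 t)

def S_InjCount : Prop :=
  ∀ (ι : Type) [Fintype ι] [DecidableEq ι] (z : Fin 3) (k b v : ℕ) (d : ι → ℕ) (i j : ι)
    (f : ι → MvPolynomial (Fin 3) ℂ) (B : Fin v → MvPolynomial (Fin 3) ℂ), i ≠ j →
    (∀ l, (f l).IsHomogeneous (d l)) → (∀ l, (B l).IsHomogeneous (b + k)) →
    SurjAt z k (b + k) (Sum.elim f B) →
    Module.finrank ℂ (UU3 (f i) (f j) (b + k)) + Hc (d i) (d j) (b + k) ≤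
      Module.finrank ℂ (VV3 (b + k)) →
    Module.finrank ℂ (VV3 b) ≤ Module.finrank ℂ (UU3 (f i) (f j) b) + Hc (d i) (d j) b →
    (∀ m, m ≠ i → m ≠ j → d m ≤ b + k → Module.finrank ℂ (VV3 (b + k - d m)) ≤
      Module.finrank ℂ (UU3 (f i) (f j) (b + k - d m)) + Hc (d i) (d j) (b + k - d m)) →
    Hc (d i) (d j) b + cnt d i j (b + k) + v ≤ Hc (d i) (d j) (b + k) →
    ∀ g : MvPolynomial (Fin 3) ℂ, g.IsHomogeneous b → X z ^ k * g ∈ Ideal.span (Set.range f) →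
      g ∈ Ideal.span (Set.range f)

end Pool.Agent.Work.MP_2ad852_ag.G3
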