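import Pool.Agent.Work.MP_2ad852_ag.GS.Stmts

/-!
# Block G3: three variables, all degrees. Definitions

`z` is the variable of the powers `z ^ k`, `y` the second distinguished variable, `x` the third one.
-/

namespace Pool.Agent.Work.MP_2ad852_ag.G3

open MvPolynomial Finset Pool.Agent.Work.MP_2ad852_ag.GF Pool.Agent.Work.MP_2ad852_ag.GS

/-- the monomial `z ^ m * y ^ i * x ^ j` -/
noncomputable def mo (z y x : Fin 3) (m i j : ℕ) : Fin 3 →₀ ℕ :=
  Finsupp.single z m + Finsupp.single y i + Finsupp.single x j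

open Classical in
/-- level `m`, degree `t`: number of monomials `z ^ m * y ^ i * x ^ (t - i)`, `i ≤ t`, outside `L` -/
noncomputable def gg (z y x : Fin 3) (L : (Fin 3 →₀ ℕ) → Prop) (m t : ℕ) : ℕ :=
  ((range (t + 1)).filter (fun i => ¬ L (mo z y x m i (t - i)))).card

/-- number of sources of degree `t` at level `e` divided by `t + 1`; `δ` is the minimal degree -/
def src (δ t e : ℕ) : ℤ :=
  if e < 2 * δ then
    (if e = 2 * t then 1 else 0) + (if e = 2 * t + 1 then 2 else 0) +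
      (if e = 2 * t + 2 then 1 else 0)
  else (if t + 1 = δ then 1 else 0)

/-- number of sinks of degree `t` at level `e` -/
def snk {ι : Type} [Fintype ι] [DecidableEq ι] (d : ι → ℕ) (l1 : ι) (t e : ℕ) : ℤ :=
  ((univ.filter (fun l => d l + t = e ∧ ¬ (l = l1 ∧ 2 * d l1 ≤ e))).card : ℤ)

/-- weight of degree `t` at level `e` divided by `t + 1` -/
def om {ι : Type} [Fintype ι] [DecidableEq ι] (d : ι → ℕ) (l1 : ι) (t e : ℕ) : ℤ :=
  src (d l1) t e - snk d l1 t e

/-- `χ e = e + 1 - ∑ (e + 1 - d_l)^+` -/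
def chi {ι : Type} [Fintype ι] (d : ι → ℕ) (e : ℕ) : ℤ :=
  (e : ℤ) + 1 - ∑ l, ((e + 1 - d l : ℕ) : ℤ)

/-- Hilbert function of a complete intersection of two forms of degrees `a, c` in three
variables -/
def Hc (a c t : ℕ) : ℕ := ((range a ×ˢ range c).filter (fun pq => pq.1 + pq.2 ≤ t)).card

/-- the degrees `d` with `v` additional forms of degree `e` -/
def dv {ι : Type} (d : ι → ℕ) (v e : ℕ) : ι ⊕ Fin v → ℕ := Sum.elim d (fun _ => e)

/-- all degrees but those of `i`, `j` are lowered by one -/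
def low {ι : Type} [DecidableEq ι] (d : ι → ℕ) (i j : ι) : ι → ℕ :=
  fun l => if l = i ∨ l = j then d l else d l - 1

/-- the count of case N2 -/
def cnt {ι : Type} [Fintype ι] [DecidableEq ι] (d : ι → ℕ) (i j : ι) (e : ℕ) : ℕ :=
  ∑ m, if m ≠ i ∧ m ≠ j ∧ d m ≤ e then Hc (d i) (d j) (e - d m) else 0

/-- homogeneous forms of degree `t` -/
noncomputable def VV3 (t : ℕ) : Submodule ℂ (MvPolynomial (Fin 3) ℂ) :=
  homogeneousSubmodule (Fin 3) ℂ t

/-- forms of degree `t` in the ideal `(f, g)` -/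
noncomputable def UU3 (f g : MvPolynomial (Fin 3) ℂ) (t : ℕ) :
    Submodule ℂ (MvPolynomial (Fin 3) ℂ) :=
  VV3 t ⊓ (Ideal.span {f, g}).restrictScalars ℂ

end Pool.Agent.Work.MP_2ad852_ag.G3
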