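import Pool.Agent.Work.MP_2ad852_ag.G3.Stmts
import Pool.Agent.Work.MP_2ad852_ag.Bd.B01

namespace Pool.Agent.Work.MP_2ad852_ag.G3

open MvPolynomial Finset Pool.Agent.Work.MP_2ad852_ag.GF Pool.Agent.Work.MP_2ad852_ag.GS

namespace CIgenAux

/-- the set of the fillers -/
def FF (a c t : ℕ) : Finset (ℕ × ℕ) := (range a ×ˢ range c).filter (fun pq => pq.1 + pq.2 ≤ t)

theorem FF_card (a c t : ℕ) : (FF a c t).card = Hc a c t := rfl

theorem FF_le {a c t : ℕ} {pq : ℕ × ℕ} (h : pq ∈ FF a c t) : pq.1 + pq.2 ≤ t := by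
  unfold FF at h
  rw [Finset.mem_filter] at h
  exact h.2

/-- exponent of a filler -/
noncomputable def ex (t : ℕ) (pq : ℕ × ℕ) : Fin 3 →₀ ℕ :=
  Finsupp.single 0 (t - pq.1 - pq.2) + Finsupp.single 1 pq.1 + Finsupp.single 2 pq.2

theorem ex0 (t : ℕ) (pq : ℕ × ℕ) : ex t pq 0 = t - pq.1 - pq.2 := by simp [ex]
theorem ex1 (t : ℕ) (pq : ℕ × ℕ) : ex t pq 1 = pq.1 := by simp [ex]
theorem ex2 (t : ℕ) (pq : ℕ × ℕ) : ex t pq 2 = pq.2 := by simp [ex]

/-- the special forms -/
noncomputable def spf (a c t : ℕ) : Bool ⊕ Fin (Hc a c t) → MvPolynomial (Fin 3) ℂ :=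
  Sum.elim (fun b => if b = true then X 1 ^ a else X 2 ^ c)
    (fun j => monomial (ex t ((FF a c t).equivFin.symm j).1) 1)

theorem spf_hom (a c t : ℕ) (l : Bool ⊕ Fin (Hc a c t)) :
    (spf a c t l).IsHomogeneous (dv (fun b : Bool => if b = true then a else c) (Hc a c t) t l) := by
  rcases l with b | j
  · rcases b with _ | _
    · exact isHomogeneous_X_pow 2 c
    · exact isHomogeneous_X_pow 1 a
  · change (monomial (ex t ((FF a c t).equivFin.symm j).1) (1 : ℂ)).IsHomogeneous t
    apply isHomogeneous_monomial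
    rw [← sum_eq_degree, Fin.sum_univ_three, ex0, ex1, ex2]
    have h := FF_le ((FF a c t).equivFin.symm j).2
    omega

theorem monomial_mem_of_le {S : Set (MvPolynomial (Fin 3) ℂ)} (p : Fin 3 →₀ ℕ) (r : ℂ) (i : Fin 3)
    (a : ℕ) (hS : (X i ^ a : MvPolynomial (Fin 3) ℂ) ∈ S) (ha : a ≤ p i) :
    monomial p r ∈ Ideal.span S := by
  have h0 : p - Finsupp.single i a + Finsupp.single i a = p := by
    ext j
    by_cases hj : j = i
    · subst hj
      simp only [Finsupp.add_apply, Finsupp.tsub_apply, Finsupp.single_eq_same]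
      omega
    · rw [Finsupp.add_apply, Finsupp.tsub_apply, Finsupp.single_eq_of_ne hj]
      omega
  have h : monomial p r = monomial (p - Finsupp.single i a) r * X i ^ a := by
    rw [X_pow_eq_monomial, monomial_mul, mul_one, h0]
  rw [h]
  exact Ideal.mul_mem_left _ _ (Ideal.subset_span hS)

theorem spf_surj (a c t : ℕ) : SurjAt (0 : Fin 3) (t + 1) t (spf a c t) := by
  intro h hh
  refine ⟨h, ?_, by rw [sub_self]; exact dvd_zero _⟩
  rw [h.as_sum]
  refine Ideal.sum_mem _ fun p hp => ?_
  have hdeg : p 0 + p 1 + p 2 = t := by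
    have := (isHomogeneous_iff_Mt h t).1 hh p (mem_support_iff.1 hp)
    rwa [Fin.sum_univ_three] at this
  by_cases h1 : a ≤ p 1
  · exact monomial_mem_of_le p _ 1 a ⟨Sum.inl true, rfl⟩ h1
  · by_cases h2 : c ≤ p 2
    · exact monomial_mem_of_le p _ 2 c ⟨Sum.inl false, rfl⟩ h2
    · have hF : (p 1, p 2) ∈ FF a c t := by
        unfold FF
        rw [Finset.mem_filter, Finset.mem_product, Finset.mem_range, Finset.mem_range]
        refine ⟨⟨?_, ?_⟩, ?_⟩
        · change p 1 < a
          omega
        · change p 2 < c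
          omega
        · change p 1 + p 2 ≤ t
          omega
      have hpe : p = ex t (p 1, p 2) := by
        ext i
        fin_cases i
        · change p 0 = ex t (p 1, p 2) 0
          rw [ex0]
          change p 0 = t - p 1 - p 2
          omega
        · change p 1 = ex t (p 1, p 2) 1
          rw [ex1]
        · change p 2 = ex t (p 1, p 2) 2
          rw [ex2]
      have hm : monomial p (coeff p h) = C (coeff p h) *
          spf a c t (Sum.inr ((FF a c t).equivFin ⟨(p 1, p 2), hF⟩)) := by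
        have h5 : spf a c t (Sum.inr ((FF a c t).equivFin ⟨(p 1, p 2), hF⟩)) =
            monomial (ex t (p 1, p 2)) 1 := by
          change monomial (ex t ((FF a c t).equivFin.symm
            ((FF a c t).equivFin ⟨(p 1, p 2), hF⟩)).1) 1 = _
          rw [Equiv.symm_apply_apply]
        rw [h5, C_mul_monomial, mul_one, ← hpe]
      rw [hm]
      exact Ideal.mul_mem_left _ _ (Ideal.subset_span ⟨_, rfl⟩)

theorem VV3_fin (t : ℕ) : FiniteDimensional ℂ (VV3 t) := by
  have h : VV3 t ≤ Submodule.span ℂ ((fun p : Fin 3 →₀ ℕ => (monomial p (1 : ℂ))) ''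
      (Mt 3 t : Set (Fin 3 →₀ ℕ))) := by
    intro f hf
    have hf' : f.IsHomogeneous t := (mem_homogeneousSubmodule _ _).1 hf
    rw [f.as_sum]
    refine Submodule.sum_mem _ fun p hp => ?_
    have h1 : monomial p (coeff p f) = coeff p f • monomial p (1 : ℂ) := by
      rw [smul_monomial, smul_eq_mul, mul_one]
    rw [h1]
    refine Submodule.smul_mem _ _ (Submodule.subset_span ⟨p, ?_, rfl⟩)
    rw [Finset.mem_coe, mem_Mt]
    exact (isHomogeneous_iff_Mt f t).1 hf' p (mem_support_iff.1 hp)
  have h2 : FiniteDimensional ℂ (Submodule.span ℂ ((fun p : Fin 3 →₀ ℕ => (monomial p (1 : ℂ))) ''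
      (Mt 3 t : Set (Fin 3 →₀ ℕ)))) :=
    FiniteDimensional.span_of_finite ℂ ((Finset.finite_toSet _).image _)
  exact Submodule.finiteDimensional_of_le h

theorem le_sup {v t a c : ℕ} (f g : MvPolynomial (Fin 3) ℂ) (hf : f.IsHomogeneous a)
    (hg : g.IsHomogeneous c) (B : Fin v → MvPolynomial (Fin 3) ℂ)
    (hB : ∀ j, (B j).IsHomogeneous t) (F : Bool → MvPolynomial (Fin 3) ℂ) (hF1 : F true = f)
    (hF2 : F false = g) (hS : SurjAt (0 : Fin 3) (t + 1) t (Sum.elim F B)) :
    VV3 t ≤ UU3 f g t ⊔ Submodule.span ℂ (Set.range B) := by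
  intro h hh
  have hh' : h.IsHomogeneous t := (mem_homogeneousSubmodule _ _).1 hh
  obtain ⟨w, hw, g', hg'⟩ := hS h hh'
  have h1 : h = homogeneousComponent t w := by
    have h2 : homogeneousComponent t (h - w) = 0 := by
      rw [hg']
      exact hc_mul_lt (t + 1) t _ _ (isHomogeneous_X_pow _ _) (Nat.lt_succ_self t)
    rw [map_sub, homogeneousComponent_of_mem hh, if_pos rfl] at h2
    exact sub_eq_zero.1 h2
  rw [Set.Sum.elim_range, Ideal.span_union, Submodule.mem_sup] at hw
  obtain ⟨w1, hw1, w2, hw2, rfl⟩ := hw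
  rw [h1, map_add]
  refine Submodule.add_mem_sup ?_ ?_
  · refine ⟨(mem_homogeneousSubmodule _ _).2 (homogeneousComponent_isHomogeneous t w1), ?_⟩
    have h3 := hc_mem (fun b : Bool => if b = true then a else c) F (by
      rintro (_ | _)
      · rw [hF2]
        exact hg
      · rw [hF1]
        exact hf) w1 hw1 t
    have h4 : Set.range F = {f, g} := by
      ext u
      constructor
      · rintro ⟨b, rfl⟩
        rcases b with _ | _
        · exact Or.inr hF2
        · exact Or.inl hF1
      · rintro (rfl | rfl)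
        · exact ⟨true, hF1⟩
        · exact ⟨false, hF2⟩
    rw [h4] at h3
    exact h3
  · obtain ⟨r, rfl⟩ := (Ideal.mem_span_range_iff_exists_fun).1 hw2
    rw [map_sum]
    refine Submodule.sum_mem _ fun j _ => ?_
    have h5 := hc_mul t 0 (B j) (r j) (hB j)
    rw [zero_add, homogeneousComponent_zero, mul_comm (B j) (r j)] at h5
    rw [h5, mul_comm, ← smul_eq_C_mul]
    exact Submodule.smul_mem _ _ (Submodule.subset_span ⟨j, rfl⟩)

end CIgenAux

open CIgenAux in
theorem pr_CIgen (hS : S_Spec) (hF : S_FillOpen) : S_CIgen := by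
  intro ι _ t d i j hij
  have h1 := hS (Bool ⊕ Fin (Hc (d i) (d j) t)) 3 0 (t + 1) t _ _ (spf_hom (d i) (d j) t)
    (spf_surj (d i) (d j) t)
  obtain ⟨P', hP', hP''⟩ := hF Bool 3 0 (t + 1) t _ _ h1
  let φ : Bool → ι := fun b => if b = true then i else j
  have hφ : Function.Injective φ := by
    rintro (_ | _) (_ | _) h
    · rfl
    · exact absurd h.symm hij
    · exact absurd h hij
    · rfl
  have hmap : Function.Injective (Prod.map φ (id : (Fin 3 →₀ ℕ) → _)) :=
    hφ.prodMap Function.injective_id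
  refine ⟨rename (Prod.map φ id) P', ?_, fun c hc => ?_⟩
  · intro h
    apply hP'
    apply rename_injective _ hmap
    rw [h, map_zero]
  · rw [eval_rename] at hc
    obtain ⟨B, hB, hsur⟩ := hP'' _ hc
    have hsf : ∀ b, sf (fun b : Bool => if b = true then d i else d j) (c ∘ Prod.map φ id) b =
        (sf d c (φ b) : MvPolynomial (Fin 3) ℂ) := by
      rintro (_ | _) <;> rfl
    have hle := le_sup (sf d c i) (sf d c j) (sf_hom d c i) (sf_hom d c j) B hB _
      (hsf true) (hsf false) hsur
    have hV := VV3_fin t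
    have hU : FiniteDimensional ℂ (UU3 (sf d c i) (sf d c j) t) :=
      Submodule.finiteDimensional_of_le (inf_le_left : UU3 (sf d c i) (sf d c j) t ≤ VV3 t)
    have hSp : FiniteDimensional ℂ (Submodule.span ℂ (Set.range B)) :=
      FiniteDimensional.span_of_finite ℂ (Set.finite_range B)
    calc Module.finrank ℂ (VV3 t) ≤ Module.finrank ℂ
          (UU3 (sf d c i) (sf d c j) t ⊔ Submodule.span ℂ (Set.range B) : Submodule ℂ _) :=
          Submodule.finrank_mono hle
      _ ≤ Module.finrank ℂ (UU3 (sf d c i) (sf d c j) t) +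
          Module.finrank ℂ (Submodule.span ℂ (Set.range B)) :=
          Submodule.finrank_add_le_finrank_add_finrank _ _
      _ ≤ _ := by
        have := finrank_range_le_card (R := ℂ) B
        rw [Fintype.card_fin] at this
        exact Nat.add_le_add_left this _

end Pool.Agent.Work.MP_2ad852_ag.G3
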