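import Pool.Agent.Work.MP_2ad852_ag.G3.Stmts

/-!
# Item Cross: single crossing
-/

namespace Pool.Agent.Work.MP_2ad852_ag.G3

open Finset

namespace ItCross

variable {ι : Type} [Fintype ι] [DecidableEq ι]

lemma snk_sum (d : ι → ℕ) (l1 : ι) (t x y : ℕ) (ht : t < d l1) :
    ∑ e' ∈ Ico x y, snk d l1 t e' =
      ((univ.filter (fun l => x ≤ d l + t ∧ d l + t < y)).card : ℤ) := by
  have h := Finset.card_eq_sum_card_fiberwise (f := fun l => d l + t)
    (s := univ.filter (fun l => x ≤ d l + t ∧ d l + t < y)) (t := Ico x y) (by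
      intro l hl
      simpa using hl)
  rw [h, Nat.cast_sum]
  refine Finset.sum_congr rfl fun b hb => ?_
  rw [Finset.mem_Ico] at hb
  unfold snk
  congr 2
  ext l
  simp only [Finset.mem_filter, Finset.mem_univ, true_and]
  constructor
  · rintro ⟨h1, -⟩
    exact ⟨by omega, h1⟩
  · rintro ⟨-, h2⟩
    refine ⟨h2, ?_⟩
    rintro ⟨rfl, h4⟩
    omega

lemma src_eq (δ t e : ℕ) (h : t + 1 < δ) : src δ t e =
    (if e = 2 * t then 1 else 0) + (if e = 2 * t + 1 then 2 else 0) +
      (if e = 2 * t + 2 then 1 else 0) := by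
  unfold src
  split_ifs <;> first | rfl | omega

lemma src_sum (δ t x y : ℕ) (h : t + 1 < δ) : ∑ e' ∈ Ico x y, src δ t e' =
    (if x ≤ 2 * t ∧ 2 * t < y then 1 else 0) + (if x ≤ 2 * t + 1 ∧ 2 * t + 1 < y then 2 else 0) +
      (if x ≤ 2 * t + 2 ∧ 2 * t + 2 < y then 1 else 0) := by
  rw [Finset.sum_congr rfl fun e _ => src_eq δ t e h, Finset.sum_add_distrib,
    Finset.sum_add_distrib, Finset.sum_ite_eq', Finset.sum_ite_eq', Finset.sum_ite_eq']
  simp only [Finset.mem_Ico]

end ItCross

open ItCross

theorem pr_Cross : S_Cross := by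
  intro ι _ _ d l1 e hmin hl t t' X Y htt ht' hXY hY hpos
  rw [← Finset.mul_sum] at hpos ⊢
  have hp : 0 < ∑ m ∈ Ico X Y, om d l1 t (e - m) := by
    by_contra hcon
    have h1 : ((t : ℤ) + 1) * ∑ m ∈ Ico X Y, om d l1 t (e - m) ≤ 0 :=
      mul_nonpos_of_nonneg_of_nonpos (by positivity) (not_lt.mp hcon)
    omega
  apply mul_nonneg (by positivity)
  by_cases hc : t' + 1 = d l1
  · -- case (i)
    apply Finset.sum_nonneg
    intro m hm
    rw [Finset.mem_Ico] at hm
    have hb : e - m ≤ e := Nat.sub_le _ _
    generalize e - m = e' at hb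
    unfold om
    by_cases h1 : e' + 1 = 2 * d l1
    · have h2 : src (d l1) t' e' = 2 := by
        unfold src
        rw [if_pos (by omega), if_neg (by omega), if_pos (by omega), if_neg (by omega)]
        rfl
      have h3 : snk d l1 t' e' ≤ 1 := by
        unfold snk
        have : (univ.filter (fun l => d l + t' = e' ∧ ¬ (l = l1 ∧ 2 * d l1 ≤ e'))) ⊆ {l1} := by
          intro l hl'
          rw [Finset.mem_filter] at hl'
          rw [Finset.mem_singleton]
          by_contra hne
          have := hl l hne
          omega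
        have h4 := Finset.card_le_card this
        rw [Finset.card_singleton] at h4
        exact_mod_cast h4
      omega
    · have h2 : 0 ≤ src (d l1) t' e' := by
        unfold src
        split_ifs <;> norm_num
      have h3 : snk d l1 t' e' = 0 := by
        unfold snk
        have : (univ.filter (fun l => d l + t' = e' ∧ ¬ (l = l1 ∧ 2 * d l1 ≤ e'))) = ∅ := by
          rw [Finset.filter_eq_empty_iff]
          rintro l - ⟨h4, h5⟩
          by_cases hne : l = l1
          · subst hne
            omega
          · have := hl l hne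
            omega
        rw [this]
        simp
      omega
  · -- case (ii)
    have ht2 : t' + 1 < d l1 := by omega
    have hYe : Y ≤ e + 1 := hY
    rw [Finset.sum_Ico_reflect _ _ hYe] at hp ⊢
    set x := e + 1 - Y with hx
    set y := e + 1 - X with hy
    simp only [om] at hp ⊢
    rw [Finset.sum_sub_distrib, snk_sum d l1 _ x y (by omega), src_sum _ _ _ _ (by omega)] at hp ⊢
    by_cases h1 : y ≤ 2 * t' + 2
    · have : (univ.filter (fun l => x ≤ d l + t' ∧ d l + t' < y)) = ∅ := by
        rw [Finset.filter_eq_empty_iff]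
        rintro l - ⟨-, h5⟩
        have := hmin l
        omega
      rw [this, Finset.card_empty]
      split_ifs <;> norm_num
    · have hx2 : x ≤ 2 * t + 2 := by
        by_contra hcon
        rw [if_neg (by omega), if_neg (by omega), if_neg (by omega)] at hp
        have : (0 : ℤ) ≤ ((univ.filter (fun l => x ≤ d l + t ∧ d l + t < y)).card : ℤ) := by
          positivity
        omega
      have hsub : (univ.filter (fun l => x ≤ d l + t' ∧ d l + t' < y)) ⊆
          (univ.filter (fun l => x ≤ d l + t ∧ d l + t < y)) := by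
        intro l hl'
        rw [Finset.mem_filter] at hl' ⊢
        have := hmin l
        exact ⟨hl'.1, by omega, by omega⟩
      have hcard := Finset.card_le_card hsub
      have hcard' : ((univ.filter (fun l => x ≤ d l + t' ∧ d l + t' < y)).card : ℤ) ≤
          ((univ.filter (fun l => x ≤ d l + t ∧ d l + t < y)).card : ℤ) := by
        exact_mod_cast hcard
      have h2 : (if x ≤ 2 * t ∧ 2 * t < y then (1 : ℤ) else 0) ≤
          (if x ≤ 2 * t' ∧ 2 * t' < y then 1 else 0) := by
        split_ifs <;> first | omega | norm_num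
      have h3 : (if x ≤ 2 * t + 1 ∧ 2 * t + 1 < y then (2 : ℤ) else 0) ≤
          (if x ≤ 2 * t' + 1 ∧ 2 * t' + 1 < y then 2 else 0) := by
        split_ifs <;> first | omega | norm_num
      have h4 : (if x ≤ 2 * t + 2 ∧ 2 * t + 2 < y then (1 : ℤ) else 0) ≤
          (if x ≤ 2 * t' + 2 ∧ 2 * t' + 2 < y then 1 else 0) := by
        split_ifs <;> first | omega | norm_num
      omega

end Pool.Agent.Work.MP_2ad852_ag.G3
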