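import Mathlib
import Pool.Agent.Work.MP_2ad852_ag.G3.Stmts

/-!
# Item FillOpen: freezing the fillers
-/

namespace Pool.Agent.Work.MP_2ad852_ag.G3

open MvPolynomial Finset Pool.Agent.Work.MP_2ad852_ag.GF Pool.Agent.Work.MP_2ad852_ag.GS

/-- coefficients which agree with `c` on the forms and with `c1` on the fillers -/
def FillOpen_mix {ι : Type} {n v : ℕ} (c1 : (ι ⊕ Fin v) × (Fin n →₀ ℕ) → ℂ)
    (c : ι × (Fin n →₀ ℕ) → ℂ) (q : (ι ⊕ Fin v) × (Fin n →₀ ℕ)) : ℂ :=
  Sum.elim (fun l => c (l, q.2)) (fun j => c1 (Sum.inr j, q.2)) q.1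

theorem pr_FillOpen (hO : S_OpenL) : S_FillOpen := by
  intro ι _ n z k e v d hLK
  obtain ⟨P0, hP0, hS⟩ := hO (ι ⊕ Fin v) n z k e (dv d v e) hLK
  obtain ⟨c1, hc1⟩ : ∃ c1, eval c1 P0 ≠ 0 := by
    by_contra h
    push Not at h
    exact hP0 (MvPolynomial.funext fun x => by rw [h x, map_zero])
  let g : (ι ⊕ Fin v) × (Fin n →₀ ℕ) → Rg ι n := fun q =>
    Sum.elim (fun l => X (l, q.2)) (fun j => C (c1 (Sum.inr j, q.2))) q.1
  have hev : ∀ c : ι × (Fin n →₀ ℕ) → ℂ, eval c (bind₁ g P0) = eval (FillOpen_mix c1 c) P0 := by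
    intro c
    have h := eval₂Hom_bind₁ (RingHom.id ℂ) c g P0
    have h2 : (fun i => eval₂Hom (RingHom.id ℂ) c (g i)) = FillOpen_mix c1 c := by
      funext q
      obtain ⟨l | j, b⟩ := q
      · simp [g, FillOpen_mix]
      · simp [g, FillOpen_mix]
    rw [h2] at h
    exact h
  refine ⟨bind₁ g P0, ?_, ?_⟩
  · intro h0
    have h1 := hev fun q => c1 (Sum.inl q.1, q.2)
    rw [h0, map_zero] at h1
    have h2 : FillOpen_mix c1 (fun q => c1 (Sum.inl q.1, q.2)) = c1 := by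
      funext q
      obtain ⟨l | j, b⟩ := q <;> rfl
    rw [h2] at h1
    exact hc1 h1.symm
  · intro c hc
    rw [hev c] at hc
    refine ⟨fun j => sf (dv d v e) (FillOpen_mix c1 c) (Sum.inr j), fun j => ?_, ?_⟩
    · refine IsHomogeneous.sum _ _ _ fun b hb => isHomogeneous_monomial _ ?_
      have h1 := mem_Mt.1 hb
      rw [Finsupp.degree_eq_sum]
      exact h1
    · have h1 := hS (FillOpen_mix c1 c) hc
      have h2 : sf (dv d v e) (FillOpen_mix c1 c) =
          Sum.elim (sf d c) fun j => sf (dv d v e) (FillOpen_mix c1 c) (Sum.inr j) := by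
        funext q
        obtain l | j := q
        · rfl
        · rfl
      rw [← h2]
      exact h1

end Pool.Agent.Work.MP_2ad852_ag.G3
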