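import Pool.Agent.Work.MP_2ad852_ag.GS.Final
import Pool.Agent.Work.MP_2ad852_ag.Bd.B08
import Pool.Agent.Work.MP_2ad852_ag.Bd.B06
import Pool.Agent.Work.MP_2ad852_ag.G3.I_CIgen
import Pool.Agent.Work.MP_2ad852_ag.G3.I_Cross
import Pool.Agent.Work.MP_2ad852_ag.G3.I_FillOpen
import Pool.Agent.Work.MP_2ad852_ag.Bd.B07

/-!
# Three variables: strong Lefschetz property for all degrees
-/

namespace Pool.Agent.Work.MP_2ad852_ag.G3

open MvPolynomial Finset Pool.Agent.Work.MP_2ad852_ag.GF Pool.Agent.Work.MP_2ad852_ag.GS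

theorem core3L : S_Core3L :=
  pr_Core3L (pr_Core2 pr_Tan3 pr_Tan4B (pr_Van2 pr_K2) pr_Ind2 (pr_LAcore (pr_LAright pr_LAleft)))
    (pr_LeadAdd2 pr_K2) (pr_LeadEx pr_K2) (pr_TwKill pr_TwInv (pr_TwFn pr_TwHom))
    (pr_TwNe pr_TwInv (pr_TwFn pr_TwHom)) pr_TwD (pr_TwSpan pr_TwInv pr_TwHom) pr_TwPDE pr_TwHom
    pr_LeadSyz2 (pr_TwfNe pr_TwInv)

theorem gg3 : S_gg := pr_gg pr_Thr

theorem tcomb : S_TComb :=
  pr_TComb gg3 pr_StdG (pr_CostA gg3 (pr_Lev pr_Thr)) pr_CostB pr_Layer pr_Pool pr_Cross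
    (pr_ChiW pr_CostB) pr_ChiT pr_MkChi

theorem tp3 : S_TP := pr_TP core3L tcomb

theorem ts3 : S_TS := pr_TS tp3 (pr_One pr_Spec) pr_ExtC

theorem r13 : S_R1 := pr_R1 pr_Spec openL (pr_BinGen (pr_BinLK pr_Spec) openL)

theorem n13 : S_N1 := pr_N1 tp3 pr_N1Num (pr_CompLK pr_Spec openL) (pr_BinLK pr_Spec)

theorem b43 : S_B4 := pr_B4 pr_ZeroLK r13

theorem n23 : S_N2 :=
  pr_N2 r13 ts3 n13 b43 (pr_SubLK pr_Spec openL) (pr_N2A pr_Hc) (pr_N2B pr_Hc) pr_HcMk pr_Hc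

/-- generic forms in three variables, more than three of them, arbitrary degrees: SLP -/
theorem thm3 (r : ℕ) (hr : 3 < r) (d : Fin r → ℕ) (hd : ∀ j, 1 ≤ d j) :
    Generic (n := 3) d (fun f => ∃ l : MvPolynomial (Fin 3) ℂ, l.IsHomogeneous 1 ∧
      ∀ i k : ℕ, MaxRk (Ideal.span (Set.range f)) l i k) :=
  fin3 openL openR pr_Pull pr_Mono pr_Full pr_FinSurj pr_FinInj pr_MatL pr_MatR pr_CardCols
    pr_LASqB pr_ExtR2 pr_ExtC tp3 ts3 n13 b43 n23 (pr_FillOpen openL)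
    (pr_CIgen pr_Spec (pr_FillOpen openL)) pr_Koszul pr_InjCount hr d hd

end Pool.Agent.Work.MP_2ad852_ag.G3
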